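import Pool.Agent.T2H40.BK.Def
import Pool.Agent.Y667.BK.Main

/-!
# The Bloch–Kato Selmer group of `A = E ⊗ M` is zero if `A(ℚ)` is finite and `Ш(A/ℚ)[2 ^ ∞] = 0`
-/

set_option autoImplicit false

namespace Pool.Agent.T2H40.BK

open WeierstrassCurve
open Pool.Agent.TH841.SH.D (Pt act Gal)
open Pool.Agent.Y702.A (mat cw EQ PtM actA ptsA ShaA shaCocA cobA)
open Pool.Agent.Y667.BK (Fix lift)

section

variable {g : ℕ} {W : WeierstrassCurve ℤ} {R : Gal ℚ →* GL (Fin g) ℤ}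

/-- the coordinates of a Selmer cocycle are cocycles of `Ш` -/
lemma coord_sha {c : Coch W g} (hc : IsSel W R c) (n : ℕ) :
    (fun σ => c σ n) ∈ shaCocA W R := by
  obtain ⟨⟨h1, h2, h3⟩, h4, h5⟩ := hc
  refine ⟨⟨h1 n, fun σ τ => h3 σ τ n⟩, fun p _ ι => ?_, fun ι => ?_⟩
  · obtain ⟨Q, -, hQ⟩ := h4 p ι
    exact ⟨Q n, fun τ σ hσ => hQ τ σ hσ n⟩
  · obtain ⟨Q, -, hQ⟩ := h5 ι
    exact ⟨Q n, fun τ σ hσ => hQ τ σ hσ n⟩

/-- a continuous cocycle with values in `V₂` is bounded in every coordinate -/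
lemma coord_tor {c : Coch W g} (hc : IsCoc W R c) (n : ℕ) :
    ∃ K : ℕ, ∀ σ, (2 ^ K : ℕ) • c σ n = 0 := by
  have hfin : (Set.range fun σ => c σ n).Finite := (hc.1 n).range_finite
  choose m hm using fun σ => (hc.2.1 σ n).2
  have hex : ∀ y ∈ Set.range (fun σ => c σ n), ∃ k : ℕ, (2 ^ k : ℕ) • y = 0 := by
    rintro y ⟨σ, rfl⟩
    exact ⟨m σ, hm σ⟩
  choose! k hk using hex
  obtain ⟨K, hK⟩ := (hfin.image k).bddAbove
  refine ⟨K, fun σ => ?_⟩
  have h1 := hk _ (Set.mem_range_self σ)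
  have h2 : k (c σ n) ≤ K := hK ⟨_, Set.mem_range_self σ, rfl⟩
  rw [← Nat.sub_add_cancel h2, pow_add, mul_smul, h1, smul_zero]

/-- **The Bloch–Kato Selmer group is zero**, if there are finitely many points and the 2-primary part
of `Ш` is zero. -/
theorem h1f_zero (hfin : Finite (ptsA W R))
    (hS : ∀ (x : ShaA W R) (k : ℕ), 2 ^ k • x = 0 → x = 0) : ∀ x : H1f W R, x = 0 := by
  have hFix : Finite (Fix fun σ : Gal ℚ => actA W R σ) := hfin
  intro x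
  obtain ⟨⟨c, hc⟩, rfl⟩ := QuotientAddGroup.mk_surjective x
  refine (QuotientAddGroup.eq_zero_iff _).2 ?_
  rw [AddSubgroup.mem_addSubgroupOf]
  have hc' : IsSel W R c := hc
  have hcob : ∀ n, ∃ P, ∀ σ : Gal ℚ, c σ n = actA W R σ P - P := by
    intro n
    obtain ⟨K, hK⟩ := coord_tor hc'.1 n
    obtain ⟨f, hf⟩ : ∃ f : shaCocA W R, f.1 = fun σ => c σ n := ⟨⟨_, coord_sha hc' n⟩, rfl⟩
    have h0 : (2 ^ K : ℕ) • f = 0 := by
      apply Subtype.ext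
      rw [AddSubgroup.coe_nsmul, hf]
      funext σ
      exact hK σ
    have h1 : (2 ^ K : ℕ) • (QuotientAddGroup.mk f : ShaA W R) = 0 := by
      rw [← QuotientAddGroup.mk_nsmul, h0]
      rfl
    have h2 := hS _ K h1
    have h3 := (QuotientAddGroup.eq_zero_iff _).1 h2
    rw [AddSubgroup.mem_addSubgroupOf] at h3
    obtain ⟨P, hP⟩ := h3
    refine ⟨P, fun σ => ?_⟩
    rw [← hP σ, hf]
  obtain ⟨x, hx1, hx2⟩ := lift (fun σ : Gal ℚ => actA W R σ) c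
    (fun σ n => (hc'.1.2.1 σ n).1) (fun n => coord_tor hc'.1 n) hcob
  exact ⟨x, hx1, hx2⟩

end

end Pool.Agent.T2H40.BK
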