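import Pool.Agent.Y702.A.Defs

/-!
# The Bloch–Kato Selmer group `H¹_f(ℚ, V₂ A)` of the abelian variety `A = E ⊗ M`

`E` is an elliptic curve over `ℚ` and `M = ℤ ^ g` a lattice with an action `R` of the absolute Galois
group of `ℚ` by matrices. The points of `A` over an algebraic closure are the `g`-tuples of points of
`E`. As for elliptic curves, `V₂ A = T₂ A ⊗ ℚ₂` is described by sequences of points, and the local
conditions are given by the images of the local Kummer maps.
-/

set_option autoImplicit false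

namespace Pool.Agent.T2H40.BK

open WeierstrassCurve
open Pool.Agent.TH841.SH.D (Pt act Gal)
open Pool.Agent.Y702.A (mat cw EQ PtM actA ptsA mat_cw)

section

variable {g : ℕ} (W : WeierstrassCurve ℤ) (R : Gal ℚ →* GL (Fin g) ℤ)

/-- sequences of points of `A` over the algebraic closure of `ℚ` -/
abbrev SeqA (g : ℕ) : Type := ℕ → PtM W g (AlgebraicClosure ℚ)

/-- The rational Tate module `V₂(A) = T₂(A) ⊗ ℚ₂`: the sequences `x₀, x₁, …` of points of `A` over the
algebraic closure, of 2-power order, with `2 xₙ₊₁ = xₙ` (`xₙ` is the class of `2⁻ⁿ x` in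
`V₂(A) / T₂(A) = A[2 ^ ∞]`). -/
def IsV (x : SeqA W g) : Prop :=
  ∀ n, x (n + 1) + x (n + 1) = x n ∧ ∃ m : ℕ, (2 ^ m : ℕ) • x n = 0

/-- functions on the absolute Galois group with values in the sequences of points -/
abbrev Coch (g : ℕ) : Type := Gal ℚ → SeqA W g

/-- `c` is a continuous cocycle with values in `V₂(A)`: each coordinate is locally constant, and
`c (σ τ) = c σ + σ (c τ)`. -/
def IsCoc (c : Coch W g) : Prop :=
  (∀ n, IsLocallyConstant fun σ => c σ n) ∧ (∀ σ, IsV W (c σ)) ∧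
    ∀ (σ τ : Gal ℚ) (n : ℕ), c (σ * τ) n = c σ n + actA W R σ (c τ n)

/-- `c` is a coboundary: `c σ = σ x - x` with `x` in `V₂(A)`. -/
def IsCob (c : Coch W g) : Prop :=
  ∃ x : SeqA W g, IsV W x ∧ ∀ (σ : Gal ℚ) (n : ℕ), c σ n = actA W R σ (x n) - x n

/-- The restriction of `c` to the absolute Galois group of the extension `K` of `ℚ` is in the image of
the Kummer map of `K`: there is a sequence `Q₀, Q₁, …` of points of `A` over the algebraic closure of `K`
with `2 Qₙ₊₁ = Qₙ` such that `(c τ)ₙ = τ Qₙ - Qₙ` for all `n` and `τ`. (As `c` is continuous with values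
in `V₂(A)`, some multiple `2 ^ m Q₀` is a point over `K`, and the class of `c` is `2 ^ (-m)` times its
image under the Kummer map.) -/
def LocKum (K : Type) [Field K] [Algebra ℚ K] (c : Coch W g) : Prop :=
  ∀ ι : AlgebraicClosure ℚ →ₐ[ℚ] AlgebraicClosure K, ∃ Q : ℕ → PtM W g (AlgebraicClosure K),
    (∀ n, Q (n + 1) + Q (n + 1) = Q n) ∧
    ∀ (τ : Gal K) (σ : Gal ℚ), (∀ x, τ (ι x) = ι (σ x)) → ∀ n,
      cw (act (EQ W) ι) (c σ n) = mat (R σ : Matrix (Fin g) (Fin g) ℤ)
        (cw (act (EQ W) (τ.toAlgHom.restrictScalars ℚ)) (Q n)) - Q n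

/-- `c` is a continuous cocycle with values in `V₂(A)` whose restriction to the completions at all the
places of `ℚ` is in the image of the local Kummer map -/
def IsSel (c : Coch W g) : Prop :=
  IsCoc W R c ∧ (∀ (p : ℕ) [Fact p.Prime], LocKum W R ℚ_[p] c) ∧ LocKum W R ℝ c

variable {W R}

lemma isV_zero : IsV W (0 : SeqA W g) := fun n => by
  refine ⟨?_, 0, ?_⟩
  · change (0 : PtM W g (AlgebraicClosure ℚ)) + 0 = 0
    rw [add_zero]
  · change (2 ^ 0 : ℕ) • (0 : PtM W g (AlgebraicClosure ℚ)) = 0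
    rw [smul_zero]

lemma isV_add {x y : SeqA W g} (hx : IsV W x) (hy : IsV W y) : IsV W (x + y) := by
  intro n
  obtain ⟨h1, m, hm⟩ := hx n
  obtain ⟨h2, l, hl⟩ := hy n
  refine ⟨?_, m + l, ?_⟩
  · change x (n + 1) + y (n + 1) + (x (n + 1) + y (n + 1)) = x n + y n
    rw [← h1, ← h2]
    abel
  · change (2 ^ (m + l) : ℕ) • (x n + y n) = 0
    rw [smul_add, pow_add, mul_comm, mul_smul, hm, smul_zero, mul_comm, mul_smul, hl, smul_zero,
      add_zero]

lemma isV_neg {x : SeqA W g} (hx : IsV W x) : IsV W (-x) := by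
  intro n
  obtain ⟨h1, m, hm⟩ := hx n
  refine ⟨?_, m, ?_⟩
  · change -x (n + 1) + -x (n + 1) = -x n
    rw [← h1]
    abel
  · change (2 ^ m : ℕ) • (-x n) = 0
    rw [smul_neg, hm, neg_zero]

variable (W R)

/-- the group of the continuous cocycles with values in `V₂(A)` that satisfy the local conditions -/
def selCoc : AddSubgroup (Coch W g) where
  carrier := {c | IsSel W R c}
  zero_mem' := by
    refine ⟨⟨fun _ => IsLocallyConstant.const _, fun _ => isV_zero, fun σ τ n => ?_⟩,
      fun p _ ι => ⟨fun _ => 0, fun _ => add_zero 0, fun τ σ _ n => ?_⟩,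
      fun ι => ⟨fun _ => 0, fun _ => add_zero 0, fun τ σ _ n => ?_⟩⟩
    · change (0 : PtM W g (AlgebraicClosure ℚ)) = 0 + actA W R σ 0
      rw [map_zero, add_zero]
    · change cw (act (EQ W) ι) 0 = _
      rw [map_zero, map_zero, map_zero, sub_zero]
    · change cw (act (EQ W) ι) 0 = _
      rw [map_zero, map_zero, map_zero, sub_zero]
  add_mem' := by
    intro f h hf hh
    have loc : ∀ (K : Type) [Field K] [Algebra ℚ K], LocKum W R K f → LocKum W R K h →
        LocKum W R K (f + h) := by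
      intro K _ _ h1 h2 ι
      obtain ⟨P, hP0, hP⟩ := h1 ι
      obtain ⟨Q, hQ0, hQ⟩ := h2 ι
      refine ⟨fun n => P n + Q n, fun n => ?_, fun τ σ hs n => ?_⟩
      · change P (n + 1) + Q (n + 1) + (P (n + 1) + Q (n + 1)) = P n + Q n
        rw [← hP0 n, ← hQ0 n]
        abel
      · change cw (act (EQ W) ι) (f σ n + h σ n) = mat (R σ : Matrix (Fin g) (Fin g) ℤ)
          (cw (act (EQ W) (τ.toAlgHom.restrictScalars ℚ)) (P n + Q n)) - (P n + Q n)
        rw [map_add, hP τ σ hs, hQ τ σ hs, map_add, map_add]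
        abel
    refine ⟨⟨fun n => (hf.1.1 n).add (hh.1.1 n), fun σ => isV_add (hf.1.2.1 σ) (hh.1.2.1 σ),
      fun σ τ n => ?_⟩, fun p _ => loc _ (hf.2.1 p) (hh.2.1 p), loc _ hf.2.2 hh.2.2⟩
    change f (σ * τ) n + h (σ * τ) n = f σ n + h σ n + actA W R σ (f τ n + h τ n)
    rw [hf.1.2.2, hh.1.2.2, map_add]
    abel
  neg_mem' := by
    intro f hf
    have loc : ∀ (K : Type) [Field K] [Algebra ℚ K], LocKum W R K f → LocKum W R K (-f) := by
      intro K _ _ h1 ι
      obtain ⟨P, hP0, hP⟩ := h1 ι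
      refine ⟨fun n => -P n, fun n => ?_, fun τ σ hs n => ?_⟩
      · change -P (n + 1) + -P (n + 1) = -P n
        rw [← hP0 n]
        abel
      · change cw (act (EQ W) ι) (-f σ n) = mat (R σ : Matrix (Fin g) (Fin g) ℤ)
          (cw (act (EQ W) (τ.toAlgHom.restrictScalars ℚ)) (-P n)) - (-P n)
        rw [map_neg, hP τ σ hs, map_neg, map_neg]
        abel
    refine ⟨⟨fun n => (hf.1.1 n).neg, fun σ => isV_neg (hf.1.2.1 σ), fun σ τ n => ?_⟩,
      fun p _ => loc _ (hf.2.1 p), loc _ hf.2.2⟩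
    change -f (σ * τ) n = -f σ n + actA W R σ (-f τ n)
    rw [hf.1.2.2, map_neg]
    abel

/-- the group of the coboundaries -/
def cob : AddSubgroup (Coch W g) where
  carrier := {c | IsCob W R c}
  zero_mem' := ⟨0, isV_zero, fun σ n => by
    change (0 : PtM W g (AlgebraicClosure ℚ)) = actA W R σ 0 - 0
    rw [map_zero, sub_zero]⟩
  add_mem' := by
    rintro f h ⟨P, hP0, hP⟩ ⟨Q, hQ0, hQ⟩
    refine ⟨P + Q, isV_add hP0 hQ0, fun σ n => ?_⟩
    change f σ n + h σ n = actA W R σ (P n + Q n) - (P n + Q n)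
    rw [hP, hQ, map_add]
    abel
  neg_mem' := by
    rintro f ⟨P, hP0, hP⟩
    refine ⟨-P, isV_neg hP0, fun σ n => ?_⟩
    change -f σ n = actA W R σ (-P n) - -P n
    rw [hP, map_neg]
    abel

/-- The Bloch–Kato Selmer group `H¹_f(ℚ, V₂(A))`, `A = W ⊗ M`: the classes of continuous cocycles with
values in `V₂(A)` whose restriction to the completion at every place is in the image of the Kummer
map. -/
abbrev H1f : Type := selCoc W R ⧸ (cob W R).addSubgroupOf (selCoc W R)

end

end Pool.Agent.T2H40.BK
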